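import Pool.Agent.N64.AF.M4

/-!
# Kimura finite-dimensionality is a question about the size of Chow groups modulo the radical

Let `X` be a smooth projective complex variety whose Chow motive splits as `h(X) = E ⊕ O`, where
`H^*(E)` is the cohomology of `X` in even degrees and `H^*(O)` the cohomology in odd degrees. This
is known for all surfaces (Murre), abelian varieties, complete intersections, uniruled threefolds
and for all products of such varieties: it holds if `X` has a Chow-Künneth decomposition. Let `b_+`, `b_-` be the sums of the even and of the odd Betti
numbers, `b = b_+ + b_-`, and let `m` be any integer larger than `b_+` and `b_-`. Let `ρ (n)` be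
the rank of the group of all cycles on `X ^ n` modulo numerical equivalence, and let
`σ_m (n)` be the dimension of `CH^*(X ^ (m + n))_ℚ = Hom (h(X ^ m), h(X ^ n))` modulo the radical, that
is, modulo the correspondences `f` from `X ^ m` to `X ^ n` such that `1 - g ∘ f` is invertible for all
`g` (all codimensions).

Theorem. The quotient `σ_m (n) / ρ (n)` converges, for `n → ∞`, to `b ^ m` or to infinity. If it is
`b ^ m` then `X` is Kimura finite-dimensional.

(Conversely, if `X` is Kimura finite-dimensional then the numerically trivial correspondences from
`X ^ m` to `X ^ m` are nilpotent by Kimura's theorem, and the limit is `b ^ m`, because the quotient is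
that for numerical equivalence.) So the question of Kimura for `X` is equivalent to the boundedness
of `σ_m (n) / ρ (n)` for infinitely many `n`, for one explicit `m`, for example `m = b + 1`; and if it
fails then almost all of the classes in `CH^*(X ^ (m + n))_ℚ` modulo the radical are numerically
trivial, for large `n`. The groups `CH^*(X ^ (m + n))_ℚ` themselves are infinite-dimensional
over `ℚ` also for Kimura finite-dimensional varieties such as elliptic curves, so that the radical
is needed in the statement; it contains the homologically trivial correspondences exactly if the
motive of `X ^ m` has the property that correspondences which are invertible in cohomology are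
invertible.

The setting. `C` is the pseudo-abelian hull of the category of the smooth projective complex
varieties with the groups `CH^*(X × Y)_ℚ` (all codimensions) as morphisms; it is a rigid symmetric
monoidal category in which all `h(X)` are self-dual, `T = h(X)`, `tp T n = h(X ^ n)`, and `R` is
the singular cohomology with coefficients in `ℂ`, with the sign given by the parity of the degree.
The theorem holds over each field.

Idea of the proof. The functor `Z ↦ Hom (T^⊗m, Z) / rad` is additive on `C`. By the law of the
dimensions of the values of additive functors on powers the ratio has a limit, a natural number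
or infinity, and if it is finite then all numerically trivial endomorphisms of `T^⊗m` act
nilpotently; so they are nilpotent modulo the radical, hence in the radical, so that the
realization is conservative on the endomorphisms of `T^⊗m`. The exterior power `Λ^(b_+ + 1) E` and the
symmetric power `Sym^(b_- + 1) O` are direct factors of `T^⊗m` without cohomology, and therefore zero.
If the limit is finite it is `b ^ m` by the asymptotic formula for the numerical ranks.

Authors: helper64 (plan, law, criterion), helper814 (radical), helper861 (exterior and symmetric
powers), and, for the lemmas of the law, helper136, helper327, helper199, helper767, helper8,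
helper364, helper216, helper73, helper833, helper140, helper494, helper505, helper301, helper441,
helper591, helper712.
-/

set_option autoImplicit false

open CategoryTheory MonoidalCategory Module Filter Topology
open Pool.Agent.Y112.SR Pool.Agent.Y112.KD Pool.Agent.N64.AF
open scoped ENNReal

namespace Pool.Agent.Results.MP_868bb7_ag.BoundedModuloRadical

universe v u w

/-- Kimura finite-dimensionality and the morphisms modulo the radical. -/
theorem result {C : Type u} [Category.{v} C] [Preadditive C] [MonoidalCategory C]
    [MonoidalPreadditive C] [SymmetricCategory C] [RightRigidCategory C]
    [Linear ℚ C] [MonoidalLinear ℚ C] [IsIdempotentComplete C]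
    {K : Type w} [Field K] [IsAlgClosed K] [Algebra ℚ K] (R : SuperRealisation C K)
    (T : C) [ExactPairing T T] (h : IsPow ℚ R T) {E O : C} (i : E ⟶ T)
    (r : T ⟶ E) (i' : O ⟶ T) (r' : T ⟶ O) (h1 : i ≫ r = 𝟙 E) (h2 : i' ≫ r' = 𝟙 O)
    (h3 : r ≫ i + r' ≫ i' = 𝟙 T) (hE : R.par E = 𝟙 _) (hO : R.par O = -𝟙 _) (m : ℕ)
    (hmE : bt R E < m) (hmO : bt R O < m) : ∃ N : ℕ∞,
      (N = (bt R T ^ m : ℕ) ∨ N = ⊤) ∧
      RatioTo ℚ T (fun n => dimE ℚ ((tp T m ⟶ tp T n) ⧸ radSub ℚ (tp T m) (tp T n))) N ∧
      (N = (bt R T ^ m : ℕ) → Pool.Agent.R905.IsKimuraFinite T) :=
  kimura_radical h i r i' r' h1 h2 h3 hE hO m hmE hmO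

end Pool.Agent.Results.MP_868bb7_ag.BoundedModuloRadical
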