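import Pool.Agent.N209.KF.Kim
import Pool.Agent.N209.BM.Cd

/-!
# Kimura finiteness over the complex numbers and over the rational numbers

Let `k` be a perfect field and `K` an extension field of `k` (for the problem, `K` is the field of
complex numbers and `k` the field of rational numbers or its algebraic closure). It is shown that the
following are equivalent.

* All Chow motives over `K` are Kimura finite-dimensional, and homological and numerical equivalence
  coincide over `K` (standard conjecture D).
* All Chow motives over `k` are Kimura finite-dimensional, and homological and numerical equivalence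
  coincide over `k`.

So, up to standard conjecture D, the conjecture of Kimura for all complex varieties is a statement on
varieties over the field of rational numbers; in positive characteristic it is a statement on
varieties over a finite field.

The theorem is stated for abstract tensor triangulated categories `C` (constructible motives over
`k`) and `C'` (over `K`), with classes `W` and `W'` of objects (Chow motives), with realisations `R`
and `R'` and the base change functor `b : C ⥤ C'`, and for each smooth connected `k`-variety `U i`
with a morphism from `Spec K` onto its generic point the category `D i` of lisse motives over `U i`,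
with the restriction `ρ i : D i ⥤ C'` to `Spec K`, the inverse image `φ i : C ⥤ D i`, its right
adjoint, the direct image `π i`, the class `P i` of Chow motives over `U i`, and the morphisms
`τ i : π i φ i M ⟶ M` given by the restriction to a closed point of `U i` and the trace. What is used
of these data are theorems of Deligne and Bondarko (`IsFamily`, `IsLisseFamily`), the theorems of
Kleiman (characteristic zero) and Smirnov (positive characteristic) that standard conjecture D implies
the Künneth conjecture, and continuity: morphisms of Chow motives over `K` come from some `U i`.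

Kimura finiteness, `IsKimuraFinite`, is taken from the starting library: `M` is the direct sum of a
summand with a vanishing exterior power and a summand with a vanishing symmetric power.

The proof: over each of the two fields, Kimura finiteness and D are together equivalent to the
nilpotence of the homologically trivial endomorphisms and D. From `k` to `K`: by weight arguments the
nilpotence holds for the mixed motives over `k` of weights `≥ 0` too. This is applied to the direct
images `π (X ⊗ X^∨)`, where `X` is a Chow motive over `U`, and to the section of `X ⊗ X^∨` given by an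
endomorphism of `X`. This gives the nilpotence over `K`; D over `K` is a theorem of the library
(`MP_5f0950_ag.IndependenceOfBaseField`). So there are Chow–Künneth decompositions over `K`, and the
components, shifted into degree zero, have vanishing exterior powers.
-/

set_option autoImplicit false

open CategoryTheory Limits MonoidalCategory Pretriangulated Triangulated

universe w v u v' u'

namespace Pool.Agent.Results.MP_868bb7_ag.ReductionToPrimeField

open Pool.Agent.Y116.MT Pool.Agent.N209.MT Pool.Agent.N209.CD Pool.Agent.N209.BD
  Pool.Agent.N209.BM Pool.Agent.N209.KF Pool.Agent.R905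

/-- The following are equivalent: Kimura finiteness and D over the extension field `K`; Kimura
finiteness and D over `k`; nilpotence of homologically trivial endomorphisms and D over `K`; the same
over `k`. -/
theorem result
    -- the category `C` of motives over `k`, and Chow motives
    {C : Type u} [Category.{v} C] [Preadditive C] [HasZeroObject C] [HasShift C ℤ]
    [∀ n : ℤ, (shiftFunctor C n).Additive] [Pretriangulated C] [IsTriangulated C]
    [MonoidalCategory C] [SymmetricCategory C] [TensorTriangulated C] [MonoidalPreadditive C]
    [RightRigidCategory C] [Linear ℚ C] [IsIdempotentComplete C]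
    {W : ObjectProperty C} (hW : IsChowClass W)
    (hQ : ∀ e : 𝟙_ C ⟶ 𝟙_ C, ∃ q : ℚ, e = q • 𝟙 _)
    -- the category `C'` of motives over `K`, and Chow motives
    {C' : Type u'} [Category.{v'} C'] [Preadditive C'] [HasZeroObject C'] [HasShift C' ℤ]
    [∀ n : ℤ, (shiftFunctor C' n).Additive] [Pretriangulated C'] [IsTriangulated C']
    [MonoidalCategory C'] [SymmetricCategory C'] [TensorTriangulated C'] [MonoidalPreadditive C']
    [RightRigidCategory C'] [Linear ℚ C'] [IsIdempotentComplete C']
    {W' : ObjectProperty C'} (hW' : IsChowClass W')
    (hQ' : ∀ e : 𝟙_ C' ⟶ 𝟙_ C', ∃ q : ℚ, e = q • 𝟙 _)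
    -- the realisations, and weights on the realisation of `C`
    {E : Type w} [Field E] (R : Realisation C E) (R' : Realisation C' E)
    (hw : Nonempty (Weights R W))
    -- standard conjecture D implies the Künneth conjecture
    (hC : HomNum R W → Kunneth R W) (hC' : HomNum R' W' → Kunneth R' W')
    -- the base change functor
    (b : C ⥤ C') [b.Monoidal] [b.Additive] [b.Faithful] [b.CommShift ℤ]
    (hb : Nonempty (R.H ≅ b ⋙ R'.H)) (hbW : ∀ M, W M → W' (b.obj M))
    -- the motives over the varieties `U i`
    {I : Type u} (D : I → Type u) [∀ i, Category.{v} (D i)] [∀ i, Preadditive (D i)]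
    [∀ i, Linear ℚ (D i)] [∀ i, MonoidalCategory (D i)] [∀ i, MonoidalPreadditive (D i)]
    [∀ i, RightRigidCategory (D i)] (P : ∀ i, ObjectProperty (D i))
    (ρ : ∀ i, D i ⥤ C') [∀ i, (ρ i).Additive] [∀ i, (ρ i).Monoidal]
    (φ : ∀ i, C ⥤ D i) [∀ i, (φ i).Monoidal] (π : ∀ i, D i ⥤ C) [∀ i, (π i).Additive]
    (adj : ∀ i, φ i ⊣ π i) (τ : ∀ i, φ i ⋙ π i ⟶ 𝟭 C) (κ : ∀ i, φ i ⋙ ρ i ≅ b)
    (hF : ∀ i, IsFamily R R' W (P i) (ρ i) (φ i) (π i) (adj i) (τ i))
    (hL : ∀ i, IsLisseFamily R R' (P i) (ρ i) (φ i) (π i) (adj i))
    -- morphisms to the unit and endomorphisms of Chow motives over `K` come from some `U i`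
    (hcov : ∀ Y : C', W' Y → ∀ u : Y ⟶ 𝟙_ C', ∃ (i : I) (X : D i) (u₀ : X ⟶ 𝟙_ (D i))
      (j : (ρ i).obj X ≅ Y), P i X ∧
        j.hom ≫ u = (ρ i).map u₀ ≫ Functor.OplaxMonoidal.η (ρ i))
    (hcov₃ : ∀ Y : C', W' Y → ∀ e : Y ⟶ Y, ∃ (i : I) (X : D i) (e₀ : X ⟶ X)
      (j : (ρ i).obj X ≅ Y), P i X ∧ j.hom ≫ e = (ρ i).map e₀ ≫ j.hom)
    -- cycles over `K` on Chow motives over `k` come from some `U i`
    (hcov' : ∀ M : C, W M → ∀ s : 𝟙_ C' ⟶ b.obj M, ∃ (i : I) (s₀ : 𝟙_ (D i) ⟶ (φ i).obj M),
      s = Functor.LaxMonoidal.ε (ρ i) ≫ (ρ i).map s₀ ≫ (κ i).hom.app M) :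
    List.TFAE [
      (∀ M : C', W' M → IsKimuraFinite M) ∧ HomNum R' W',
      (∀ M : C, W M → IsKimuraFinite M) ∧ HomNum R W,
      NilOn R' W' ∧ HomNum R' W',
      NilOn R W ∧ HomNum R W] := by
  obtain ⟨w⟩ := hw
  obtain ⟨hb⟩ := hb
  have := monoidalLinear (C := C)
  have := monoidalLinear (C := C')
  tfae_have 1 → 3 := fun h => ⟨fun M hM e he => nil_of_kimura hQ' (h.1 M hM) e he, h.2⟩
  tfae_have 3 → 1 := fun h => ⟨fun M hM => kimura_of_nil hW' (hC' h.2) h.1 hM, h.2⟩
  tfae_have 2 → 4 := fun h => ⟨fun M hM e he => nil_of_kimura hQ (h.1 M hM) e he, h.2⟩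
  tfae_have 4 → 2 := fun h => ⟨fun M hM => kimura_of_nil hW (hC h.2) h.1 hM, h.2⟩
  tfae_have 3 → 4 := by
    rintro ⟨hN', hD'⟩
    exact ⟨nil_descend b hb hbW hN', homNum_of_homNumD hW.dual
        (descend (homNumD_of_homNum hW'.dual hD') b hb hbW hF κ hcov')⟩
  tfae_have 4 → 3 := by
    rintro ⟨hN, hD⟩
    exact ⟨nil_ascend hW w (regularOn_of_homNum hW hQ hD) hN (fun i => (hF i).weights) hL hcov₃,
      homNum_of_homNumD hW'.dual (ascend hW.neg w hW.unit (homNumD_of_homNum hW.dual hD) hF hcov)⟩
  tfae_finish

end Pool.Agent.Results.MP_868bb7_ag.ReductionToPrimeField
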