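import Pool.Agent.R905.Div

/-!
# Kimura finite-dimensionality descends along tensor products

`C` is a `ℚ`-linear pseudo-abelian rigid symmetric tensor category in which the endomorphisms of the
unit object are the rational numbers (`UnitQ`), with a symmetric monoidal additive functor `R` to
finite dimensional super vector spaces over a field `K` (`SuperRealisation`): for the problem the
category of Chow motives over `ℂ` with rational coefficients and Betti cohomology.

Theorem. Let `M` and `N` be objects with nonzero realisations. If `M ⊗ N` is finite-dimensional in the
sense of Kimura, then `M` and `N` are.

The converse is a theorem of Kimura. No summand of `h(X) ⊗ h(Y)` other than `h(X)` itself is needed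
to be known to be finite-dimensional: for instance, if `t_2(S) ⊗ t_2(T)` is finite-dimensional for the
transcendental parts of the motives of two surfaces with `p_g > 0`, then `S` and `T` are Kimura
finite-dimensional.

Proof. The sign conjecture `C⁺` for `M ⊗ N` implies it for `M` and for `N`. A homologically trivial
endomorphism `f` of `M` is nilpotent because `f ⊗ 1` is, and because `N` has an endomorphism of nonzero
trace. So `M = E ⊕ O` and `N = E' ⊕ O'` with realisations which are even (`E`, `E'`) and odd
(`O`, `O'`). The products of two such parts are direct summands of `M ⊗ N` of pure parity, so that
their exterior or symmetric powers vanish in large degrees, and the vanishing descends to `E` and `O` by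
contraction.
-/

set_option autoImplicit false

open CategoryTheory Limits MonoidalCategory

namespace Pool.Agent.Results.MP_868bb7_ag.TensorDescent

open Pool.Agent.Y112.KD Pool.Agent.Y112.SR Pool.Agent.R905

universe v u w

/-- If `M ⊗ N` is finite-dimensional in the sense of Kimura, and the realisations of `M` and `N` are
not zero, then `M` and `N` are finite-dimensional. -/
theorem result {C : Type u} [Category.{v} C] [Preadditive C] [Linear ℚ C] [MonoidalCategory C]
    [MonoidalPreadditive C] [MonoidalLinear ℚ C] [SymmetricCategory C] [RightRigidCategory C]
    [IsIdempotentComplete C] {K : Type w} [Field K] (R : SuperRealisation C K) (hU : UnitQ C)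
    {M N : C} (hM : ¬ IsZero (R.H.obj M)) (hN : ¬ IsZero (R.H.obj N))
    (h : IsKimuraFinite (M ⊗ N)) : IsKimuraFinite M ∧ IsKimuraFinite N :=
  ⟨isKimuraFinite_left R hU hM hN h, isKimuraFinite_left R hU hN hM
    (h.retract R hU (β_ N M).hom (β_ N M).inv (by simp))⟩

end Pool.Agent.Results.MP_868bb7_ag.TensorDescent
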