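import Pool.Agent.N567.MD.MainK

/-!
# Finite-dimensionality is the uniqueness of Chow-Kunneth decompositions

Let `𝒱` be the class of all the smooth projective varieties over a field which have a Chow-Kunneth
decomposition, or a class of varieties which satisfy the standard conjecture of Lefschetz type
(closed under products and smooth linear sections).

It is known that the Chow-Kunneth decompositions of a variety with finite-dimensional motive are
unique up to conjugation. Here the converse is proved: if the Chow-Kunneth decompositions of all the
varieties in `𝒱` are unique up to conjugation, then all of them are finite-dimensional in the sense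
of Kimura. It is even sufficient that for all the Chow-Kunneth decompositions `π` the part of weight
zero is the unit motive (that is, `π 0 = x × X` for a zero-cycle `x`), or that `π 0` acts as zero on
the cycles of positive codimension. Finite-dimensionality is also equivalent to the nilpotence of the
action of homologically trivial self-correspondences on the cycles of middle codimension: it is
sufficient to know this for arbitrarily large `j`, for the cycles of codimension `j` on varieties of
dimension `2 j` which cover all the others.

The idea of the proof. A phantom (a homologically trivial idempotent self-correspondence) which is a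
direct summand of a part of a Chow-Kunneth decomposition of `Y` can be moved to the part of weight
zero. If this part always acts as zero on the cycles of positive codimension, phantoms do so as well,
also on `Y × Y`, and they vanish. The antisymmetrizer (symmetrizer) of a large power of the even
(odd) part of `X` commutes with the projectors of a Chow-Kunneth decomposition of the power `Y` of
`X`, so it is a sum of phantoms of this form, and the motive of `X` is finite-dimensional.
-/

set_option autoImplicit false

universe u v w

namespace Pool.Agent.Results.MP_868bb7_ag.UniqueDecompositions

open Pool.Agent.H914 Pool.Agent.N164.Prim Pool.Agent.N567.Mid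
open Pool.Agent.W492.BB (TheoryData WeilTheoryData)

/-- Let `𝒱` be a class of varieties, closed under products (with Chow groups `C` and a Weil
cohomology `H`), which contains a curve and which is a Lefschetz class or consists of varieties with
Chow-Kunneth decompositions. The following are equivalent:

* the varieties in `𝒱` are finite-dimensional in the sense of Kimura;
* they have Chow-Kunneth decompositions, unique up to conjugation;
* they have Chow-Kunneth decompositions, and for all of them `π 0 = x × X` with a zero-cycle `x`;
* they have Chow-Kunneth decompositions, and for all of them `π 0` acts as zero on the cycles of
  positive codimension;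
* they have Chow-Kunneth decompositions, and no phantoms;
* for arbitrarily large `j` every variety of dimension `2 j` is covered by a variety `X'` of dimension
  `2 j'` such that the homologically trivial self-correspondences of degree zero of `X'` act
  nilpotently on `CH^(j')(X')`. -/
theorem result {k : Type u} [Field k] {𝒱 : VarClass k} {C : TheoryData.{u, v, 0} 𝒱 ℚ}
    [IsChowTheory C] {K : Type w} [Field K] {H : WeilTheoryData.{u, v, w} C K} [IsWeilTheory H]
    (hg : IsGradedCommutative H) {T : 𝒱.Obj} (hT : T.dim = 1) (hL : IsLefschetzOrCK H) :
    List.TFAE [∀ X : 𝒱.Obj, IsKimuraFinite C X,
      ∀ X : 𝒱.Obj, HasCK H X ∧ IsUniqueCK H X,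
      ∀ X : 𝒱.Obj, HasCK H X ∧ HasUnitPart H X,
      ∀ X : 𝒱.Obj, HasCK H X ∧ ZeroPartKills H X,
      ∀ X : 𝒱.Obj, HasCK H X ∧ NoPhantoms H X,
      ∀ e : ℕ, ∃ j, e ≤ j ∧ ∀ X : 𝒱.Obj, X.dim = 2 * j →
        ∃ (X' : 𝒱.Obj) (j' : ℕ), Covers C X' X ∧ X'.dim = 2 * j' ∧
          HomActsNilpotently H X' j'] :=
  mainK inferInstance inferInstance hg hT hL

end Pool.Agent.Results.MP_868bb7_ag.UniqueDecompositions
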